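import Mathlib
import Pool.Agent.TH497.PW.IntFlow
import Pool.Agent.TH362.FP.Pos
import Pool.Agent.Y335.FL.Main
import Pool.Agent.Q164.BC.Main

/-!
# Graphs covered by few small balls (MP_974d84_co)

Let `G` be a bridgeless multigraph in which all vertices of degree at least three are covered by
balls with radii `r_1, …, r_m ≤ 5` with `w (r_1) + … + w (r_m) ≤ 125`, where
`w = 1, 4, 10, 24, 50, 104` for the radii `0, 1, 2, 3, 4, 5`. Then `G` has a nowhere-zero 5-flow, and
the characteristic polynomial of its bond matroid is positive at all integers `q ≥ 5`. In particular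
this holds for all bridgeless graphs with radius at most five, and for all bridgeless graphs with
domination number at most 31.

Proof.  The class is closed under contractions (not under deletions).  Let `G` be a counterexample
with as few edges as possible.  Circuits with at most eleven edges can be contracted (library
`Y335/FL` of helper335), and so can one of two edges which form a cut; hence `G` has girth at least
twelve and all degrees are at least three (apart from isolated vertices).  From an edge `x y` we
grow a cubic tree with 126 vertices.  Along every path of this tree the distance to the centre of a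
ball can only increase until it is six, before it decreases again; this gives, by a recursion over
the tree, that a ball of radius `r` contains at most `w r` of the 126 vertices.
-/

namespace Pool.Agent.Results.MP_974d84_co.BallCovers

open Pool.Agent.TH497.PW

variable {V E : Type}

/-- The edges with exactly one end in `X`. -/
def boundary [DecidableEq V] [Fintype E] (src dst : E → V) (X : Finset V) : Finset E :=
  Finset.univ.filter (fun e => ¬ (src e ∈ X ↔ dst e ∈ X))

/-- Kirchhoff's law. -/
def IsFlow [DecidableEq V] [Fintype E] (src dst : E → V) (f : E → ℤ) : Prop :=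
  ∀ v : V, ∑ e ∈ Finset.univ.filter (fun e => src e = v), f e
    = ∑ e ∈ Finset.univ.filter (fun e => dst e = v), f e

/-- The degree of `v`; loops are not counted. -/
def properDegree [DecidableEq V] [Fintype E] (src dst : E → V) (v : V) : ℕ :=
  (Finset.univ.filter (fun e => src e ≠ dst e ∧ (src e = v ∨ dst e = v))).card

/-- The number of the components of the graph with the vertices `V` and the edges `A`. -/
noncomputable def components (src dst : E → V) (A : Finset E) : ℕ :=
  Nat.card (SimpleGraph.fromRel
    (fun u v : V => ∃ e ∈ A, src e = u ∧ dst e = v)).ConnectedComponent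

/-- The rank of `A` in the cycle matroid of the graph. -/
noncomputable def cycleRank [Fintype V] (src dst : E → V) (A : Finset E) : ℕ :=
  Fintype.card V - components src dst A

/-- The rank of `A` in the bond matroid of the graph (the dual of the cycle matroid). -/
noncomputable def bondRank [Fintype V] [Fintype E] [DecidableEq E] (src dst : E → V)
    (A : Finset E) : ℕ :=
  A.card + cycleRank src dst Aᶜ - cycleRank src dst Finset.univ

/-- The characteristic polynomial of the bond matroid at the integer `x`. -/
noncomputable def bondCharPoly [Fintype V] [Fintype E] [DecidableEq E] (src dst : E → V)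
    (x : ℤ) : ℤ :=
  ∑ A : Finset E, (-1) ^ A.card * x ^ (bondRank src dst Finset.univ - bondRank src dst A)

/-- There is an edge between `x` and `y`, and `x ≠ y`. -/
def Adjacent (src dst : E → V) (x y : V) : Prop :=
  x ≠ y ∧ ∃ e, (src e = x ∧ dst e = y) ∨ (src e = y ∧ dst e = x)

/-- The distance from `x` to `y` is at most `n`. -/
def WithinDistance (src dst : E → V) : ℕ → V → V → Prop
  | 0, x, y => x = y
  | n + 1, x, y => WithinDistance src dst n x y ∨
      ∃ z, WithinDistance src dst n x z ∧ Adjacent src dst z y

/-- The weight of a ball of radius `r ≤ 5`. -/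
def weight (r : ℕ) : ℕ :=
  if r = 0 then 1 else if r = 1 then 4 else if r = 2 then 10 else if r = 3 then 24
  else if r = 4 then 50 else 104

theorem isFlow_iff [DecidableEq V] [Fintype E] (src dst : E → V) (f : E → ℤ) :
    IsFlow src dst f ↔
      ∀ v, ∑ e, f e * ((if src e = v then 1 else 0) - (if dst e = v then 1 else 0)) = 0 := by
  unfold IsFlow
  refine forall_congr' fun v => ?_
  rw [Finset.sum_filter, Finset.sum_filter, ← sub_eq_zero, ← Finset.sum_sub_distrib]
  have : ∀ e, (if src e = v then f e else 0) - (if dst e = v then f e else 0)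
      = f e * ((if src e = v then 1 else 0) - (if dst e = v then 1 else 0)) := by
    intro e
    by_cases h1 : src e = v <;> by_cases h2 : dst e = v <;> simp [h1, h2]
  rw [Finset.sum_congr rfl (fun e _ => this e)]

theorem nzf [Fintype V] [DecidableEq V] [Fintype E] [DecidableEq E] (src dst : E → V)
    (h : Pool.Agent.TH676.Z.FlowOn src dst ∅ ∅) : NZF src dst := by
  obtain ⟨f, h1, _, h3⟩ := h
  refine ⟨f, fun e => h3 e (Finset.notMem_empty _) (Finset.notMem_empty _), fun x => ?_⟩
  rw [← h1 x]
  unfold Pool.Agent.TH676.Z.bd
  refine Finset.sum_congr rfl fun e _ => ?_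
  unfold ic
  by_cases h4 : src e = x <;> by_cases h5 : dst e = x <;> simp [h4, h5]

theorem charPoly_pos [Fintype V] [DecidableEq V] [Fintype E] [DecidableEq E] (src dst : E → V)
    (f : E → ℤ) (h1 : IsFlow src dst f) (h2 : ∀ e, 1 ≤ |f e| ∧ |f e| ≤ 4) (q : ℕ) (hq : 5 ≤ q) :
    0 < bondCharPoly src dst q :=
  Pool.Agent.TH362.FP.chr_pos src dst f h2 h1 q hq

theorem near_iff (src dst : E → V) (n : ℕ) (x y : V) :
    Pool.Agent.Q164.BC.Near src dst n x y ↔ WithinDistance src dst n x y := by
  induction n generalizing y with
  | zero => exact Iff.rfl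
  | succ n ih =>
    unfold Pool.Agent.Q164.BC.Near WithinDistance
    rw [ih y]
    refine or_congr Iff.rfl (exists_congr fun z => ?_)
    rw [ih z]
    exact Iff.rfl

theorem weight_eq (r : ℕ) (hr : r ≤ 5) : Pool.Agent.Q164.BC.wt r = weight r := by
  interval_cases r <;> rfl

/-- **Theorem.** See the claim file. -/
theorem result :
    ∀ (V E : Type) [Fintype V] [DecidableEq V] [Fintype E] [DecidableEq E] (src dst : E → V)
      (m : ℕ) (centre : Fin m → V) (radius : Fin m → ℕ), (∀ i, radius i ≤ 5) →
      ∑ i, weight (radius i) ≤ 125 →
      (∀ x, 3 ≤ properDegree src dst x → ∃ i, WithinDistance src dst (radius i) (centre i) x) →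
      (∀ Y : Finset V, (boundary src dst Y).card ≠ 1) →
      (∃ f : E → ℤ, IsFlow src dst f ∧ ∀ e, 1 ≤ |f e| ∧ |f e| ≤ 4) ∧
      ∀ q : ℕ, 5 ≤ q → 0 < bondCharPoly src dst q := by
  intro V E _ _ _ _ src dst m c r hr hw hcov hb
  have hcl : Pool.Agent.Q164.BC.ClB m r src dst := by
    refine ⟨c, fun x hx => ?_⟩
    obtain ⟨i, hi⟩ := hcov x hx
    exact ⟨i, (near_iff src dst _ _ _).2 hi⟩
  have hfl := Pool.Agent.Q164.BC.flow_of_ClB Pool.Agent.Y335.FL.contract_all m r hr
    (by rw [Finset.sum_congr rfl fun i _ => weight_eq (r i) (hr i)]; exact hw) src dst hcl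
    (fun Y _ => by rw [Finset.sdiff_empty]; exact hb Y)
  obtain ⟨F, hF, hF0⟩ := int_flow src dst (nzf src dst hfl)
  have hF1 := (isFlow_iff src dst F).mpr hF0
  exact ⟨⟨F, hF1, hF⟩, fun q hq => charPoly_pos src dst F hF1 hF q hq⟩

end Pool.Agent.Results.MP_974d84_co.BallCovers
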