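import Mathlib
import Pool.Agent.TH497.PW.IntFlow
import Pool.Agent.TH362.FP.Pos
import Pool.Agent.Q114.IM.Main

/-!
# Graphs without a given tree as an induced minor (MP_974d84_co)

Let `T` be a finite tree of maximum degree at most three and diameter at most ten (such a tree is
contained in the tree with 94 vertices all of whose inner vertices have degree three and all of
whose leaves have distance five from one vertex).  Every bridgeless multigraph that does not have
`T` as an induced minor has a nowhere-zero 5-flow, and the characteristic polynomial of its bond
matroid is positive at all integers `q ≥ 5`.  The degrees, the connectivity, the treewidth, the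
genus and the order of the graphs are arbitrary.

Proof.  Consider all quotients of `G` whose classes are connected sets of vertices.  A quotient
without a nowhere-zero 5-flow which is minimal for contractions has girth at least twelve, and all
degrees are at least three (apart from isolated vertices) by the library `Y335/FL` of the starting
files.  Embed `T` leaf by leaf such that different neighbours of a vertex have different images.
A path of `T` between two vertices is mapped to a non-backtracking walk with at most ten edges; it
is not closed, and its ends are not adjacent, as there are no circuits with at most eleven edges.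
So the image of `T` is an induced subgraph of the quotient, and `T` is an induced minor of `G`.
-/

set_option autoImplicit false

namespace Pool.Agent.Results.MP_974d84_co.ExcludedInducedTree

open Pool.Agent.TH497.PW

/-- The graph `T` is an induced minor: there are disjoint connected sets `B a` of vertices, one for
each vertex `a` of `T`, such that for `a ≠ b` the sets `B a` and `B b` are joined by an edge exactly
if `a` and `b` are adjacent in `T`.  (A set is connected if it is not empty and any two of its
vertices are joined by a path inside the set.) -/
def HasInducedMinor {V E W : Type} (T : SimpleGraph W) (src dst : E → V) : Prop :=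
  ∃ B : W → Set V, (∀ a, TH362.Multi.ConnectedSet src dst (B a)) ∧
    (∀ a b, a ≠ b → Disjoint (B a) (B b)) ∧
    ∀ a b, a ≠ b → (T.Adj a b ↔
      ∃ e, (src e ∈ B a ∧ dst e ∈ B b) ∨ (src e ∈ B b ∧ dst e ∈ B a))

variable {V E : Type}

/-- The edges with exactly one end in `X`. -/
def boundary [DecidableEq V] [Fintype E] (src dst : E → V) (X : Finset V) : Finset E :=
  Finset.univ.filter (fun e => ¬ (src e ∈ X ↔ dst e ∈ X))

/-- Kirchhoff's law. -/
def IsFlow [DecidableEq V] [Fintype E] (src dst : E → V) (f : E → ℤ) : Prop :=
  ∀ v : V, ∑ e ∈ Finset.univ.filter (fun e => src e = v), f e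
    = ∑ e ∈ Finset.univ.filter (fun e => dst e = v), f e

/-- The number of the components of the graph with the vertices `V` and the edges `A`. -/
noncomputable def components (src dst : E → V) (A : Finset E) : ℕ :=
  Nat.card (SimpleGraph.fromRel
    (fun u v : V => ∃ e ∈ A, src e = u ∧ dst e = v)).ConnectedComponent

/-- The rank of `A` in the cycle matroid of the graph. -/
noncomputable def cycleRank [Fintype V] (src dst : E → V) (A : Finset E) : ℕ :=
  Fintype.card V - components src dst A

/-- The rank of `A` in the bond matroid of the graph (the dual of the cycle matroid). -/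
noncomputable def bondRank [Fintype V] [Fintype E] [DecidableEq E] (src dst : E → V)
    (A : Finset E) : ℕ :=
  A.card + cycleRank src dst Aᶜ - cycleRank src dst Finset.univ

/-- The characteristic polynomial of the bond matroid at the integer `x`. -/
noncomputable def bondCharPoly [Fintype V] [Fintype E] [DecidableEq E] (src dst : E → V)
    (x : ℤ) : ℤ :=
  ∑ A : Finset E, (-1) ^ A.card * x ^ (bondRank src dst Finset.univ - bondRank src dst A)

theorem isFlow_iff [DecidableEq V] [Fintype E] (src dst : E → V) (f : E → ℤ) :
    IsFlow src dst f ↔
      ∀ v, ∑ e, f e * ((if src e = v then 1 else 0) - (if dst e = v then 1 else 0)) = 0 := by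
  unfold IsFlow
  refine forall_congr' fun v => ?_
  rw [Finset.sum_filter, Finset.sum_filter, ← sub_eq_zero, ← Finset.sum_sub_distrib]
  have : ∀ e, (if src e = v then f e else 0) - (if dst e = v then f e else 0)
      = f e * ((if src e = v then 1 else 0) - (if dst e = v then 1 else 0)) := by
    intro e
    by_cases h1 : src e = v <;> by_cases h2 : dst e = v <;> simp [h1, h2]
  rw [Finset.sum_congr rfl (fun e _ => this e)]

theorem nzf [Fintype V] [DecidableEq V] [Fintype E] [DecidableEq E] (src dst : E → V)
    (h : Pool.Agent.TH676.Z.FlowOn src dst ∅ ∅) : NZF src dst := by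
  obtain ⟨f, h1, _, h3⟩ := h
  refine ⟨f, fun e => h3 e (Finset.notMem_empty _) (Finset.notMem_empty _), fun x => ?_⟩
  rw [← h1 x]
  unfold Pool.Agent.TH676.Z.bd
  refine Finset.sum_congr rfl fun e _ => ?_
  unfold ic
  by_cases h4 : src e = x <;> by_cases h5 : dst e = x <;> simp [h4, h5]

theorem charPoly_pos [Fintype V] [DecidableEq V] [Fintype E] [DecidableEq E] (src dst : E → V)
    (f : E → ℤ) (h1 : IsFlow src dst f) (h2 : ∀ e, 1 ≤ |f e| ∧ |f e| ≤ 4) (q : ℕ) (hq : 5 ≤ q) :
    0 < bondCharPoly src dst q :=
  Pool.Agent.TH362.FP.chr_pos src dst f h2 h1 q hq

/-- **Theorem.** Let `T` be a finite tree with maximum degree at most three and diameter at most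
ten.  Every finite multigraph without cuts of size one that does not have `T` as an induced minor
has a nowhere-zero 5-flow, and the characteristic polynomial of its bond matroid is positive at all
integers `q ≥ 5`. -/
theorem result :
    ∀ (W : Type) [Fintype W] (T : SimpleGraph W), T.IsTree →
      (∀ a, (T.neighborSet a).ncard ≤ 3) → (∀ a b, T.dist a b ≤ 10) →
    ∀ (V E : Type) [Fintype V] [DecidableEq V] [Fintype E] [DecidableEq E] (src dst : E → V),
      ¬ HasInducedMinor T src dst → (∀ Y : Finset V, (boundary src dst Y).card ≠ 1) →
      (∃ f : E → ℤ, IsFlow src dst f ∧ ∀ e, 1 ≤ |f e| ∧ |f e| ≤ 4) ∧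
      ∀ q : ℕ, 5 ≤ q → 0 < bondCharPoly src dst q := by
  intro W _ T hT hdeg hd V E _ _ _ _ src dst hno hb
  have hfl := Pool.Agent.Q114.IM.flowT src dst
    (fun Y _ => by rw [Finset.sdiff_empty]; exact hb Y) T hT hdeg hd hno
  obtain ⟨G, hG, hG0⟩ := int_flow src dst (nzf src dst hfl)
  have hG1 := (isFlow_iff src dst G).mpr hG0
  exact ⟨⟨G, hG1, hG⟩, fun q hq => charPoly_pos src dst G hG1 hG q hq⟩

end Pool.Agent.Results.MP_974d84_co.ExcludedInducedTree
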