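import Mathlib
import Pool.Agent.TH497.PW.IntFlow
import Pool.Agent.TH362.FP.Pos
import Pool.Agent.Q121.OD.Circ

set_option autoImplicit false

/-!
# Nowhere-zero 5-flows in graphs with few odd vertices or few odd components (MP_974d84_co)

Every bridgeless multigraph with at most 125 vertices of odd degree has a nowhere-zero 5-flow; the
number and the degrees of the even vertices are arbitrary.  More generally let `C_1, ..., C_m` be
cycles of the bridgeless multigraph `G`, each with at most eleven edges outside the union of the
earlier ones, let `F` be their union, and suppose that at most 125 components of `(V, F)` are left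
by an odd number of edges (in other words, there are no 126 pairwise disjoint vertex sets with odd
boundaries avoiding `F`).  Then `G` has a nowhere-zero 5-flow.  For example (`disjoint_circuits`,
`two_factor` below) this holds if `G` is cubic and bridgeless and has a 2-factor into circuits of
length at most eleven of which at most 125 are odd; there may be any number of even circuits.

The theorem is proved for the closure of the class of these graphs under gluing at edge cuts with at
most three edges.

Proof.  A flow of `G / F` gives a flow of `G` by the contraction library of the starting files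
(Y335/FL), so let `G` have at most 125 odd vertices.  If a vertex `v` of a bridgeless multigraph has
at least four edges `e0, e1, e2, e3` then one of the pairs `e0 ei` can be split off without
producing a bridge: otherwise for each `i` there is an edge cut `{e0, ei, gi}`; counting the edges
between the four parts given by two of these cuts one finds edge cuts `{e0, e1, e2}` and
`{e0, e1, e3}`, and these give a bridge.  Splitting off keeps the parity of all edge cuts, so that
the number of odd vertices does not change, and a flow of the new graph gives a flow of `G`.  In the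
end there are at most 125 vertices of degree three and all other vertices have degree zero or two; a
minimal counterexample would have girth at least twelve and so at least 126 vertices.
-/

namespace Pool.Agent.Results.MP_974d84_co.OddComponents

open Pool.Agent.TH497.PW

variable {V E : Type}

/-- The edges with exactly one end in `X`. -/
def boundary [DecidableEq V] [Fintype E] (src dst : E → V) (X : Finset V) : Finset E :=
  Finset.univ.filter (fun e => ¬ (src e ∈ X ↔ dst e ∈ X))

/-- Kirchhoff's law. -/
def IsFlow [DecidableEq V] [Fintype E] (src dst : E → V) (f : E → ℤ) : Prop :=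
  ∀ v : V, ∑ e ∈ Finset.univ.filter (fun e => src e = v), f e
    = ∑ e ∈ Finset.univ.filter (fun e => dst e = v), f e

/-- `C` is a cycle (an edge-disjoint union of circuits, connected or not): the support of an
integer flow with values in `{0, 1, -1}`. -/
def IsCycle [DecidableEq V] [Fintype E] (src dst : E → V) (C : Finset E) : Prop :=
  ∃ z : E → ℤ, IsFlow src dst z ∧ (∀ e, z e = 0 ∨ z e = 1 ∨ z e = -1) ∧ ∀ e, z e ≠ 0 ↔ e ∈ C

/-- Identify all the vertices of `Y` with `y`. -/
def contract [DecidableEq V] (Y : Finset V) (y : V) (x : V) : V := if x ∈ Y then y else x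

/-- The smallest class of multigraphs (edge `e` from `src e` to `dst e`) that contains the graphs
with cycles `C i`, each with at most eleven edges outside the union of the earlier ones, such that
there are no 126 pairwise disjoint vertex sets with odd boundaries which avoid all `C i`, and that
contains every graph with an edge cut with at most three edges for which both graphs obtained by
contracting a side of the cut to a vertex (edges inside this side become loops) are in the class. -/
inductive Built [Fintype V] [DecidableEq V] [Fintype E] [DecidableEq E] :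
    (E → V) → (E → V) → Prop
  | base (src dst : E → V) (m : ℕ) (C : Fin m → Finset E) (hC : ∀ i, IsCycle src dst (C i))
      (hnew : ∀ i, (C i \ (Finset.univ.filter (fun j => j < i)).biUnion C).card ≤ 11)
      (hodd : ∀ X : Fin 126 → Finset V, (∀ i j, i ≠ j → Disjoint (X i) (X j)) →
        (∀ i, Disjoint (boundary src dst (X i)) (Finset.univ.biUnion C)) →
        ∃ i, Even (boundary src dst (X i)).card) : Built src dst
  | glue (src dst : E → V) (Y : Finset V) (y z : V) (hy : y ∈ Y) (hz : z ∉ Y)
      (h3 : (boundary src dst Y).card ≤ 3)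
      (h1 : Built (contract Y y ∘ src) (contract Y y ∘ dst))
      (h2 : Built (contract Yᶜ z ∘ src) (contract Yᶜ z ∘ dst)) : Built src dst

/-- The number of the components of the graph with the vertices `V` and the edges `A`. -/
noncomputable def components (src dst : E → V) (A : Finset E) : ℕ :=
  Nat.card (SimpleGraph.fromRel
    (fun u v : V => ∃ e ∈ A, src e = u ∧ dst e = v)).ConnectedComponent

/-- The rank of `A` in the cycle matroid of the graph. -/
noncomputable def cycleRank [Fintype V] (src dst : E → V) (A : Finset E) : ℕ :=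
  Fintype.card V - components src dst A

/-- The rank of `A` in the bond matroid of the graph (the dual of the cycle matroid). -/
noncomputable def bondRank [Fintype V] [Fintype E] [DecidableEq E] (src dst : E → V)
    (A : Finset E) : ℕ :=
  A.card + cycleRank src dst Aᶜ - cycleRank src dst Finset.univ

/-- The characteristic polynomial of the bond matroid at the integer `x`. -/
noncomputable def bondCharPoly [Fintype V] [Fintype E] [DecidableEq E] (src dst : E → V)
    (x : ℤ) : ℤ :=
  ∑ A : Finset E, (-1) ^ A.card * x ^ (bondRank src dst Finset.univ - bondRank src dst A)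

theorem isFlow_iff [DecidableEq V] [Fintype E] (src dst : E → V) (f : E → ℤ) :
    IsFlow src dst f ↔
      ∀ v, ∑ e, f e * ((if src e = v then 1 else 0) - (if dst e = v then 1 else 0)) = 0 := by
  unfold IsFlow
  refine forall_congr' fun v => ?_
  rw [Finset.sum_filter, Finset.sum_filter, ← sub_eq_zero, ← Finset.sum_sub_distrib]
  have : ∀ e, (if src e = v then f e else 0) - (if dst e = v then f e else 0)
      = f e * ((if src e = v then 1 else 0) - (if dst e = v then 1 else 0)) := by
    intro e
    by_cases h1 : src e = v <;> by_cases h2 : dst e = v <;> simp [h1, h2]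
  rw [Finset.sum_congr rfl (fun e _ => this e)]

theorem nzf [Fintype V] [DecidableEq V] [Fintype E] [DecidableEq E] (src dst : E → V)
    (h : Pool.Agent.TH676.Z.FlowOn src dst ∅ ∅) : NZF src dst := by
  obtain ⟨f, h1, _, h3⟩ := h
  refine ⟨f, fun e => h3 e (Finset.notMem_empty _) (Finset.notMem_empty _), fun x => ?_⟩
  rw [← h1 x]
  unfold Pool.Agent.TH676.Z.bd
  refine Finset.sum_congr rfl fun e _ => ?_
  unfold ic
  by_cases h4 : src e = x <;> by_cases h5 : dst e = x <;> simp [h4, h5]

/-- the reduction modulo five of a flow with values in `{0, 1, -1}` -/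
theorem mod5 [Fintype V] [DecidableEq V] [Fintype E] [DecidableEq E] (src dst : E → V)
    (C : Finset E) (h : IsCycle src dst C) :
    ∃ z : E → ZMod 5, (∀ v, Pool.Agent.TH676.Z.bd src dst z v = 0) ∧
      (∀ e, z e = 0 ∨ z e = 1 ∨ z e = -1) ∧ ∀ e, z e ≠ 0 ↔ e ∈ C := by
  obtain ⟨z, h1, h2, h3⟩ := h
  refine ⟨fun e => ((z e : ℤ) : ZMod 5), fun v => ?_, fun e => ?_, fun e => ?_⟩
  · have h4 := h1 v
    rw [Finset.sum_filter, Finset.sum_filter, ← sub_eq_zero, ← Finset.sum_sub_distrib] at h4
    have h5 := congrArg (fun t : ℤ => (t : ZMod 5)) h4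
    simp only [Int.cast_sum, Int.cast_sub, Int.cast_zero] at h5
    refine Eq.trans ?_ h5
    unfold Pool.Agent.TH676.Z.bd
    rw [Finset.sum_sub_distrib, Finset.sum_sub_distrib]
    congr 1 <;>
    · refine Finset.sum_congr rfl fun e _ => ?_
      split_ifs <;> simp
  · rcases h2 e with h | h | h <;> simp [h]
  · rw [← h3 e]
    have h10 : (1 : ZMod 5) ≠ 0 := by decide
    rcases h2 e with h | h | h <;> simp [h, h10]

theorem flowOn_of_built [Fintype V] [DecidableEq V] [Fintype E] [DecidableEq E]
    {src dst : E → V} (h : Built src dst) (hb : ∀ Y, (boundary src dst Y).card ≠ 1) :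
    Pool.Agent.TH676.Z.FlowOn src dst ∅ ∅ := by
  induction h with
  | base src dst m C hC hnew hodd =>
    refine Pool.Agent.Q121.OD.odd_comp hb m C (fun i => mod5 src dst (C i) (hC i)) hnew ?_
    intro X h1 h2
    obtain ⟨i, hi⟩ := hodd X h1 h2
    exact ⟨i, Nat.even_iff.mp hi⟩
  | glue src dst Y y z hy hz h3 h1 h2 ih1 ih2 =>
    exact Pool.Agent.Q121.OD.glue_merge hb hy hz h3
      (ih1 (fun X => Pool.Agent.Q121.OD.br_comp hb (Pool.Agent.Q121.OD.merge Y y) X))
      (ih2 (fun X => Pool.Agent.Q121.OD.br_comp hb (Pool.Agent.Q121.OD.merge Yᶜ z) X))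

theorem conclusion [Fintype V] [DecidableEq V] [Fintype E] [DecidableEq E]
    {src dst : E → V} (h : Pool.Agent.TH676.Z.FlowOn src dst ∅ ∅) :
    (∃ f : E → ℤ, IsFlow src dst f ∧ ∀ e, 1 ≤ |f e| ∧ |f e| ≤ 4) ∧
      ∀ q : ℕ, 5 ≤ q → 0 < bondCharPoly src dst q := by
  obtain ⟨F, hF, hF0⟩ := int_flow src dst (nzf src dst h)
  have hF1 := (isFlow_iff src dst F).mpr hF0
  exact ⟨⟨F, hF1, hF⟩, fun q hq => Pool.Agent.TH362.FP.chr_pos src dst F hF hF1 q hq⟩

/-- A bridgeless multigraph in the class `Built` has a nowhere-zero 5-flow, and the characteristic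
polynomial of its bond matroid is positive at all integers `q ≥ 5`. -/
theorem result :
    ∀ (V E : Type) [Fintype V] [DecidableEq V] [Fintype E] [DecidableEq E] (src dst : E → V),
      Built src dst → (∀ Y : Finset V, (boundary src dst Y).card ≠ 1) →
      (∃ f : E → ℤ, IsFlow src dst f ∧ ∀ e, 1 ≤ |f e| ∧ |f e| ≤ 4) ∧
      ∀ q : ℕ, 5 ≤ q → 0 < bondCharPoly src dst q := by
  intro V E _ _ _ _ src dst h hb
  exact conclusion (flowOn_of_built h hb)

/-- Consequence: at most 125 vertices of odd degree (loops are not counted). -/
theorem few_odd_vertices (V E : Type) [Fintype V] [DecidableEq V] [Fintype E] [DecidableEq E]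
    (src dst : E → V)
    (ho : (Finset.univ.filter (fun v => Odd (boundary src dst {v}).card)).card ≤ 125)
    (hb : ∀ Y : Finset V, (boundary src dst Y).card ≠ 1) :
    (∃ f : E → ℤ, IsFlow src dst f ∧ ∀ e, 1 ≤ |f e| ∧ |f e| ≤ 4) ∧
      ∀ q : ℕ, 5 ≤ q → 0 < bondCharPoly src dst q := by
  refine conclusion (Pool.Agent.Q121.OD.few_odd _ src dst le_rfl hb (le_trans ?_ ho))
  apply Finset.card_le_card
  intro v hv
  have h := (Finset.mem_filter.mp hv).2
  exact Finset.mem_filter.mpr ⟨Finset.mem_univ v, Nat.odd_iff.mpr h⟩

/-- Consequence: pairwise disjoint circuits with at most eleven edges; the number of those which are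
left by an odd number of edges, plus the number of the odd vertices on none of them, is at most
125. -/
theorem disjoint_circuits (V E : Type) [Fintype V] [DecidableEq V] [Fintype E] [DecidableEq E]
    (src dst : E → V) (m : ℕ) (k : Fin m → ℕ) (hk : ∀ i, k i + 2 ≤ 11)
    (v : (i : Fin m) → Fin (k i + 2) → V) (ed : (i : Fin m) → Fin (k i + 2) → E)
    (hed : ∀ i, Function.Injective (ed i))
    (hJ : ∀ i a, (src (ed i a) = v i a ∧ dst (ed i a) = v i (a + 1)) ∨
      (src (ed i a) = v i (a + 1) ∧ dst (ed i a) = v i a))
    (hdis : ∀ i j, i ≠ j → Disjoint (Finset.univ.image (v i)) (Finset.univ.image (v j)))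
    (ho : (Finset.univ.filter (fun i => Odd (boundary src dst
        (Finset.univ.image (v i))).card)).card +
      (Finset.univ.filter (fun x => (∀ i, x ∉ Finset.univ.image (v i)) ∧
        Odd (boundary src dst {x}).card)).card ≤ 125)
    (hb : ∀ Y : Finset V, (boundary src dst Y).card ≠ 1) :
    (∃ f : E → ℤ, IsFlow src dst f ∧ ∀ e, 1 ≤ |f e| ∧ |f e| ≤ 4) ∧
      ∀ q : ℕ, 5 ≤ q → 0 < bondCharPoly src dst q := by
  refine conclusion (Pool.Agent.Q121.OD.circuits hb m k (fun i => by have := hk i; omega) v ed
    hed hJ hdis (le_trans ?_ ho))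
  simp only [Nat.odd_iff]
  exact le_rfl

/-- Consequence: a cubic bridgeless multigraph whose vertex set is partitioned into the vertex sets
of circuits with at most eleven edges, at most 125 of which are odd, has a nowhere-zero 5-flow. -/
theorem two_factor (V E : Type) [Fintype V] [DecidableEq V] [Fintype E] [DecidableEq E]
    (src dst : E → V) (hcub : ∀ x, (boundary src dst {x}).card = 3)
    (m : ℕ) (k : Fin m → ℕ) (hk : ∀ i, k i + 2 ≤ 11)
    (v : (i : Fin m) → Fin (k i + 2) → V) (ed : (i : Fin m) → Fin (k i + 2) → E)
    (hv : ∀ i, Function.Injective (v i)) (hed : ∀ i, Function.Injective (ed i))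
    (hJ : ∀ i a, (src (ed i a) = v i a ∧ dst (ed i a) = v i (a + 1)) ∨
      (src (ed i a) = v i (a + 1) ∧ dst (ed i a) = v i a))
    (hdis : ∀ i j, i ≠ j → Disjoint (Finset.univ.image (v i)) (Finset.univ.image (v j)))
    (hall : ∀ x, ∃ i a, v i a = x)
    (ho : (Finset.univ.filter (fun i => Odd (k i + 2))).card ≤ 125)
    (hb : ∀ Y : Finset V, (boundary src dst Y).card ≠ 1) :
    (∃ f : E → ℤ, IsFlow src dst f ∧ ∀ e, 1 ≤ |f e| ∧ |f e| ≤ 4) ∧
      ∀ q : ℕ, 5 ≤ q → 0 < bondCharPoly src dst q := by
  refine disjoint_circuits V E src dst m k hk v ed hed hJ hdis ?_ hb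
  have h1 : (Finset.univ.filter (fun x => (∀ i, x ∉ Finset.univ.image (v i)) ∧
        Odd (boundary src dst {x}).card)) = ∅ := by
    apply Finset.filter_eq_empty_iff.mpr
    rintro x - ⟨h2, -⟩
    obtain ⟨i, a, ha⟩ := hall x
    exact h2 i (Finset.mem_image.mpr ⟨a, Finset.mem_univ a, ha⟩)
  rw [h1, Finset.card_empty, add_zero]
  refine le_trans (Finset.card_le_card ?_) ho
  intro i hi
  have h2 := (Finset.mem_filter.mp hi).2
  refine Finset.mem_filter.mpr ⟨Finset.mem_univ i, ?_⟩
  have h3 := Pool.Agent.Q121.OD.crs_sum src dst (Finset.univ.image (v i))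
  have h4 : ∑ x ∈ Finset.univ.image (v i), (Pool.Agent.TH676.Z.crs src dst {x}).card
      = 3 * (k i + 2) := by
    have h6 : ∀ x ∈ Finset.univ.image (v i), (Pool.Agent.TH676.Z.crs src dst {x}).card = 3 :=
      fun x _ => hcub x
    rw [Finset.sum_congr rfl h6, Finset.sum_const,
      Finset.card_image_of_injective _ (hv i), Finset.card_univ, Fintype.card_fin, smul_eq_mul,
      mul_comm]
  rw [h4] at h3
  rw [Nat.odd_iff] at h2 ⊢
  have h5 : (boundary src dst (Finset.univ.image (v i))).card =
    (Pool.Agent.TH676.Z.crs src dst (Finset.univ.image (v i))).card := rfl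
  omega

end Pool.Agent.Results.MP_974d84_co.OddComponents
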