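import Mathlib
import Pool.Agent.TH497.PW.IntFlow
import Pool.Agent.TH362.FP.Pos
import Pool.Agent.Q165.SG.Main

/-!
# String graphs, on surfaces and with apex vertices (MP_974d84_co)

A string graph is the intersection graph of connected sets of vertices (regions) of a planar graph
`J`.  We prove the 5-flow conjecture for all string graphs and more generally for all graphs `G`
with a set `S` of `k` vertices such that `G - S` is the intersection graph of regions of a graph `J`
with Euler genus at most `h` (MacLane's condition with defect `h`), if `7 k + 6 h ≤ 137` and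
`k ≤ 18`.  For `k = 0` these are the region intersection graphs over surfaces of Euler genus at most
22, for `h = 0` the graphs which become string graphs by the deletion of at most 18 vertices.
Parallel edges and loops of `G` are allowed.

Proof.  The class is closed under contractions of edges (not under deletions).  Let `G` be a
counterexample with as few edges as possible; it has girth at least twelve, and all degrees are at
least three (apart from isolated vertices) by the library `Y335/FL` of the starting files.

(1) Take a representation of `G - S` for which `J` has as few edges as possible.  As `G` has no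
triangles every point is in at most two regions.  An edge of `J` which is not inside of a region can
be deleted, an edge such that the regions of one end are regions of the other end can be contracted,
an edge which is not needed for the connectivity of the regions can be deleted.  Hence both ends of
an edge of `J` are in exactly two regions and have exactly one region in common, and `J` has no
loops, no parallel edges and no triangles.

(2) Every even subgraph `b` of `J` has an image `φ b` in the cycle space of `G - S`: cut `b` at the
points into pieces inside of the regions; the edge `u v` gets the number of the points of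
`R u ∩ R v` at which the piece in `R u` is odd (as the degrees of `b` are even this is the same for
`R v`).  `φ` is linear, surjective, and `φ b` has at most as many edges as `b`.

(3) Hence nonzero even subgraphs of `J` have at least four edges, and at least twelve if their image
is not zero.  The faces of `J` and the sum of all of them give
`4 (r + 1) + 8 (r' + 1) ≤ 2 |E(J)|`, where `r` and `r'` are the dimensions of the span of the faces
and of its image.

(4) Counting incidences between points and regions: `2 |V(J)| ≤ |E(J)| + |V(G - S)|`.  With
Euler's formula for `J` and for `G - S` it follows that `8 m + 24 ≤ 10 n + 12 h` for the numbers `m`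
and `n` of the edges and vertices of `G - S`, and this contradicts the degrees (at a vertex of
degree `d` in `S` there are at least `62 d` edges at distance at most four from its neighbours).
-/

set_option autoImplicit false

namespace Pool.Agent.Results.MP_974d84_co.StringGraphs

open Pool.Agent.TH497.PW

variable {V E : Type}

/-- The edges with exactly one end in `X`. -/
def boundary [DecidableEq V] [Fintype E] (src dst : E → V) (X : Finset V) : Finset E :=
  Finset.univ.filter (fun e => ¬ (src e ∈ X ↔ dst e ∈ X))

/-- Kirchhoff's law. -/
def IsFlow [DecidableEq V] [Fintype E] (src dst : E → V) (f : E → ℤ) : Prop :=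
  ∀ v : V, ∑ e ∈ Finset.univ.filter (fun e => src e = v), f e
    = ∑ e ∈ Finset.univ.filter (fun e => dst e = v), f e

/-- There is an edge between `x` and `y`, and `x ≠ y`. -/
def Adjacent (src dst : E → V) (x y : V) : Prop :=
  x ≠ y ∧ ∃ e, (src e = x ∧ dst e = y) ∨ (src e = y ∧ dst e = x)

/-- The vertices in `X` (if there are any) form a connected subgraph: a nonempty subset `Y` of `X`
such that no edge leads from `Y` to the rest of `X` is all of `X`. -/
def ConnectedSet (src dst : E → V) (X : Finset V) : Prop :=
  ∀ Y ⊆ X, Y.Nonempty → (∀ e, src e ∈ X → dst e ∈ X → (src e ∈ Y ↔ dst e ∈ Y)) → Y = X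

/-- The cycle space over `GF(2)`: the functions on the edges which satisfy Kirchhoff's law
modulo 2. -/
def cycleSpace [DecidableEq V] [Fintype E] (src dst : E → V) : Submodule (ZMod 2) (E → ZMod 2) where
  carrier := {x | ∀ v : V, ∑ e ∈ Finset.univ.filter (fun e => src e = v), x e
      + ∑ e ∈ Finset.univ.filter (fun e => dst e = v), x e = 0}
  add_mem' := by
    intro a b h2 h4 v
    simp only [Pi.add_apply, Finset.sum_add_distrib]
    have := congrArg₂ (· + ·) (h2 v) (h4 v)
    simp only [add_zero] at this
    rw [← this]
    ring
  zero_mem' := fun v => by simp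
  smul_mem' := by
    intro c a h2 v
    simp only [Pi.smul_apply, smul_eq_mul, ← Finset.mul_sum]
    rw [← mul_add, h2 v, mul_zero]

/-- MacLane's condition with defect `h`: there is a finite family of elements of the cycle space
such that every edge is in at most two of them and the dimension of the cycle space is at most the
dimension of their span plus `h`. -/
def MacLaneDefect [DecidableEq V] [Fintype E] (src dst : E → V) (h : ℕ) : Prop :=
  ∃ (k : ℕ) (K : Fin k → E → ZMod 2), (∀ i, K i ∈ cycleSpace src dst) ∧
    (∀ e, (Finset.univ.filter (fun i => K i e ≠ 0)).card ≤ 2) ∧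
    Module.finrank (ZMod 2) (cycleSpace src dst) ≤
      Module.finrank (ZMod 2) (Submodule.span (ZMod 2) (Set.range K)) + h

/-- The number of the components of the graph with the vertices `V` and the edges `A`. -/
noncomputable def components (src dst : E → V) (A : Finset E) : ℕ :=
  Nat.card (SimpleGraph.fromRel
    (fun u v : V => ∃ e ∈ A, src e = u ∧ dst e = v)).ConnectedComponent

/-- The rank of `A` in the cycle matroid of the graph. -/
noncomputable def cycleRank [Fintype V] (src dst : E → V) (A : Finset E) : ℕ :=
  Fintype.card V - components src dst A

/-- The rank of `A` in the bond matroid of the graph (the dual of the cycle matroid). -/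
noncomputable def bondRank [Fintype V] [Fintype E] [DecidableEq E] (src dst : E → V)
    (A : Finset E) : ℕ :=
  A.card + cycleRank src dst Aᶜ - cycleRank src dst Finset.univ

/-- The characteristic polynomial of the bond matroid at the integer `x`. -/
noncomputable def bondCharPoly [Fintype V] [Fintype E] [DecidableEq E] (src dst : E → V)
    (x : ℤ) : ℤ :=
  ∑ A : Finset E, (-1) ^ A.card * x ^ (bondRank src dst Finset.univ - bondRank src dst A)

theorem isFlow_iff [DecidableEq V] [Fintype E] (src dst : E → V) (f : E → ℤ) :
    IsFlow src dst f ↔
      ∀ v, ∑ e, f e * ((if src e = v then 1 else 0) - (if dst e = v then 1 else 0)) = 0 := by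
  unfold IsFlow
  refine forall_congr' fun v => ?_
  rw [Finset.sum_filter, Finset.sum_filter, ← sub_eq_zero, ← Finset.sum_sub_distrib]
  have : ∀ e, (if src e = v then f e else 0) - (if dst e = v then f e else 0)
      = f e * ((if src e = v then 1 else 0) - (if dst e = v then 1 else 0)) := by
    intro e
    by_cases h1 : src e = v <;> by_cases h2 : dst e = v <;> simp [h1, h2]
  rw [Finset.sum_congr rfl (fun e _ => this e)]

theorem nzf [Fintype V] [DecidableEq V] [Fintype E] [DecidableEq E] (src dst : E → V)
    (h : Pool.Agent.TH676.Z.FlowOn src dst ∅ ∅) : NZF src dst := by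
  obtain ⟨f, h1, _, h3⟩ := h
  refine ⟨f, fun e => h3 e (Finset.notMem_empty _) (Finset.notMem_empty _), fun x => ?_⟩
  rw [← h1 x]
  unfold Pool.Agent.TH676.Z.bd
  refine Finset.sum_congr rfl fun e _ => ?_
  unfold ic
  by_cases h4 : src e = x <;> by_cases h5 : dst e = x <;> simp [h4, h5]

theorem charPoly_pos [Fintype V] [DecidableEq V] [Fintype E] [DecidableEq E] (src dst : E → V)
    (f : E → ℤ) (h1 : IsFlow src dst f) (h2 : ∀ e, 1 ≤ |f e| ∧ |f e| ≤ 4) (q : ℕ) (hq : 5 ≤ q) :
    0 < bondCharPoly src dst q :=
  Pool.Agent.TH362.FP.chr_pos src dst f h2 h1 q hq

theorem cycleSpace_eq [Fintype V] [DecidableEq V] [Fintype E] [DecidableEq E] (src dst : E → V) :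
    cycleSpace src dst = Pool.Agent.TH676.Z.ZF src dst Finset.univ := by
  ext x
  have h2 : ∀ v, Pool.Agent.TH676.Z.bd2 src dst x v =
      ∑ e ∈ Finset.univ.filter (fun e => src e = v), x e
        + ∑ e ∈ Finset.univ.filter (fun e => dst e = v), x e := by
    intro v
    unfold Pool.Agent.TH676.Z.bd2
    rw [Finset.sum_add_distrib, Finset.sum_filter, Finset.sum_filter]
  constructor
  · intro h'
    exact ⟨fun e he => absurd (Finset.mem_univ e) he, fun v => by rw [h2 v]; exact h' v⟩
  · rintro ⟨_, h'⟩
    exact fun v => by rw [← h2 v]; exact h' v

/-- **Theorem.** See the claim file. -/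
theorem result :
    ∀ (V E W F : Type) [Fintype V] [DecidableEq V] [Fintype E] [DecidableEq E]
      [Fintype W] [DecidableEq W] [Fintype F] [DecidableEq F]
      (src dst : E → V) (s t : F → W) (S : Finset V) (R : V → Finset W) (h : ℕ),
      7 * S.card + 6 * h ≤ 137 → S.card ≤ 18 →
      MacLaneDefect s t h →
      (∀ u, u ∉ S → ConnectedSet s t (R u)) →
      (∀ u v, u ∉ S → v ∉ S → u ≠ v → (Adjacent src dst u v ↔ ∃ p, p ∈ R u ∧ p ∈ R v)) →
      (∀ Y : Finset V, (boundary src dst Y).card ≠ 1) →
      (∃ f : E → ℤ, IsFlow src dst f ∧ ∀ e, 1 ≤ |f e| ∧ |f e| ≤ 4) ∧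
      ∀ q : ℕ, 5 ≤ q → 0 < bondCharPoly src dst q := by
  intro V E W F _ _ _ _ _ _ _ _ src dst s t S R h hkh hk hM hcn had hb
  classical
  have hM1 : Pool.Agent.TH676.Z.Mac h s t Finset.univ := by
    obtain ⟨k, K, h1, h2, h3⟩ := hM
    rw [cycleSpace_eq] at h3
    exact ⟨k, K, fun i => by rw [← cycleSpace_eq]; exact h1 i, h2, h3⟩
  have hcl : Pool.Agent.Q165.SG.ClS S.card h W F src dst := by
    refine ⟨S, le_rfl, s, t, Finset.univ, fun u => if u ∈ S then ∅ else R u, hM1, ?_, ?_, ?_⟩
    · intro u hu
      simp only [if_pos hu]
    · intro u
      by_cases hu : u ∈ S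
      · simp only [if_pos hu]
        exact Pool.Agent.Q165.SG.Cn.empty _ _ _
      · simp only [if_neg hu]
        intro Y hY hn hc
        exact hcn u hu Y hY hn (fun f => hc f (Finset.mem_univ f))
    · intro u v hu hv huv
      simp only [if_neg hu, if_neg hv]
      exact had u v hu hv huv
  have hfl := Pool.Agent.Q165.SG.flowS hkh hk W F src dst hcl
    (fun Y _ => by rw [Finset.sdiff_empty]; exact hb Y)
  obtain ⟨G, hG, hG0⟩ := int_flow src dst (nzf src dst hfl)
  have hG1 := (isFlow_iff src dst G).mpr hG0
  exact ⟨⟨G, hG1, hG⟩, fun q hq => charPoly_pos src dst G hG1 hG q hq⟩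

end Pool.Agent.Results.MP_974d84_co.StringGraphs
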